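import Pool.Agent.W51.CR.Asym

/-!
# Rational points of the middle-third Cantor set: an exponent below two

Let `N_j` be the number of reduced fractions `p/q` in `[0,1)` lying in the middle-third Cantor set
whose denominator satisfies `3^j ≤ q < 3^(j+1)`. We prove `N_j = O(2^(ς j))` for every
`ς > log 3 / log 2 = 1.58...`; in particular some exponent `ς < 2` is admissible, which answers the
question of Broderick, Fishman and Reich.

Sketch of the proof. For `y` in the Cantor set `cos (2πy) ≥ -1/2`, whence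
`3 cos (2πy) - 3 cos (4πy) + cos (6πy) ≥ 1`. The Cantor set is invariant under `x ↦ 3x` modulo one,
so for every `I` one of the lacunary sums `∑_{i<I} cos (2π f 3^i x)`, `f = 1, 2, 3`, has absolute
value at least `I/7`. Take the `2k`-th moment over all fractions `p/q`, `3^j ≤ q < 3^(j+1)`; the
frequencies equal to zero are few by a Riesz product, and every non-zero frequency is divisible by
few `q` by the divisor bound. With `k = κ j`, `κ` small, and `I = β k`, `β` large, this gives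
`N_j = O(3^((1+ε) j))`.
-/

set_option autoImplicit false

namespace Pool.Agent.Results.MP_0581eb_nt.ExponentBelowTwo

open Pool.Agent.W51.CR

/-- `N_j`: the number of pairs `(p, q)` of coprime natural numbers with `0 ≤ p < q`,
`3^j ≤ q < 3^(j+1)` and `p / q` in the middle-third Cantor set. -/
noncomputable def Nj (j : ℕ) : ℕ :=
  {pq : ℕ × ℕ | pq.1 < pq.2 ∧ Nat.Coprime pq.1 pq.2 ∧ 3 ^ j ≤ pq.2 ∧ pq.2 < 3 ^ (j + 1) ∧
    ((pq.1 : ℝ) / (pq.2 : ℝ)) ∈ cantorSet}.ncard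

open scoped Classical in
lemma Nj_le (j : ℕ) : Nj j ≤ N (3 ^ j) := by
  unfold Nj N
  set G : Finset (Σ _ : ℕ, ℕ) := (Finset.Ico (3 ^ j) (3 * 3 ^ j)).sigma
    (fun q => (Finset.range q).filter (fun p : ℕ => ((p : ℝ) / (q : ℝ)) ∈ cantorSet)) with hG
  have hcard : G.card = ∑ q ∈ Finset.Ico (3 ^ j) (3 * 3 ^ j),
      ((Finset.range q).filter (fun p : ℕ => ((p : ℝ) / (q : ℝ)) ∈ cantorSet)).card :=
    Finset.card_sigma _ _
  rw [← hcard]
  have hsub : {pq : ℕ × ℕ | pq.1 < pq.2 ∧ Nat.Coprime pq.1 pq.2 ∧ 3 ^ j ≤ pq.2 ∧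
      pq.2 < 3 ^ (j + 1) ∧ ((pq.1 : ℝ) / (pq.2 : ℝ)) ∈ cantorSet} ⊆
      ((G.image (fun x => (x.2, x.1)) : Finset (ℕ × ℕ)) : Set (ℕ × ℕ)) := by
    rintro ⟨p, q⟩ ⟨h1, -, h3, h4, h5⟩
    simp only at h1 h3 h4 h5
    rw [Finset.coe_image]
    refine ⟨⟨q, p⟩, ?_, rfl⟩
    rw [Finset.mem_coe, hG, Finset.mem_sigma, Finset.mem_Ico, Finset.mem_filter, Finset.mem_range]
    refine ⟨⟨h3, ?_⟩, h1, h5⟩
    rw [pow_succ] at h4
    simp only
    omega
  refine (Set.ncard_le_ncard hsub (Finset.finite_toSet _)).trans ?_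
  rw [Set.ncard_coe_finset]
  exact Finset.card_image_le

/-- **Result.** `log 3 / log 2 < 2`, and for every `ς > log 3 / log 2` there is a constant `C` with
`N_j ≤ C · 2^(ς j)` for all `j ≥ 1`. -/
theorem result : Real.logb 2 3 < 2 ∧
    ∀ ς : ℝ, Real.logb 2 3 < ς → ∃ C : ℝ, ∀ j : ℕ, 1 ≤ j →
      (Nj j : ℝ) ≤ C * (2 : ℝ) ^ (ς * (j : ℝ)) := by
  have h2 : Real.logb 2 3 < 2 := by
    rw [Real.logb_lt_iff_lt_rpow (by norm_num) (by norm_num)]
    norm_num
  refine ⟨h2, fun ς hς => ?_⟩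
  have hlpos : 0 < Real.logb 2 3 := Real.logb_pos (by norm_num) (by norm_num)
  set ε : ℝ := ς / Real.logb 2 3 - 1 with hε
  have hεpos : 0 < ε := by
    rw [hε, sub_pos, one_lt_div hlpos]; exact hς
  obtain ⟨C, -, hC⟩ := asym ε hεpos
  refine ⟨C, fun j _ => ?_⟩
  have h1 : (Nj j : ℝ) ≤ (N (3 ^ j) : ℝ) := by exact_mod_cast Nj_le j
  refine h1.trans ((hC j).trans (le_of_eq ?_))
  congr 1
  have h3 : (3 : ℝ) = (2 : ℝ) ^ (Real.logb 2 3) :=
    (Real.rpow_logb (by norm_num) (by norm_num) (by norm_num)).symm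
  conv_lhs => rw [h3]
  rw [← Real.rpow_mul (by norm_num)]
  congr 1
  rw [hε]
  field_simp
  ring

end Pool.Agent.Results.MP_0581eb_nt.ExponentBelowTwo
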